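import Mathlib

/-!
# Finite set systems: Menger dual, Menger property, Mengerian systems, minors

A set system on the finite set of points `α` is a `Finset (Finset α)`, its blocks are the members.
-/

set_option autoImplicit false

namespace Pool.Agent.TH502.SM

open Finset

variable {α : Type} [Fintype α] [DecidableEq α]

/-- The inclusion-minimal blocks. -/
def minl (F : Finset (Finset α)) : Finset (Finset α) :=
  F.filter fun B => ∀ B' ∈ F, B' ⊆ B → B' = B

/-- The Menger dual: the inclusion-minimal sets of points which meet every minimal block. -/
def dual (F : Finset (Finset α)) : Finset (Finset α) :=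
  minl (univ.filter fun T => ∀ B ∈ minl F, (B ∩ T).Nonempty)

/-- The largest number of pairwise disjoint minimal blocks. -/
def nu (F : Finset (Finset α)) : ℕ :=
  ((minl F).powerset.filter fun P => ∀ B ∈ P, ∀ B' ∈ P, B ≠ B' → Disjoint B B').sup card

/-- The least cardinality of a block of the Menger dual. -/
noncomputable def tau (F : Finset (Finset α)) : ℕ := sInf {n | ∃ T ∈ dual F, T.card = n}

/-- The Menger property; by convention the systems with the empty block and the system without
blocks have it. -/
def HasMenger (F : Finset (Finset α)) : Prop := ∅ ∈ F ∨ F = ∅ ∨ nu F = tau F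

/-- `F` is Mengerian: `∅` is a block, or for every `c` there is a packing `f` of blocks into the
capacities `c` whose size is the least capacity of a block of the Menger dual. -/
def Mengerian (F : Finset (Finset α)) : Prop :=
  ∅ ∈ F ∨ ∀ c : α → ℕ, ∃ f : Finset α → ℕ,
    (∀ x, ∑ B ∈ F.filter (fun B => x ∈ B), f B ≤ c x) ∧
      ∃ C ∈ dual F, (∀ C' ∈ dual F, ∑ x ∈ C, c x ≤ ∑ x ∈ C', c x) ∧
        ∑ B ∈ F, f B = ∑ x ∈ C, c x

/-- The minors: the systems reached by weak point-restrictions (remove the points of `S` from all
blocks) and strong point-restrictions (keep the blocks disjoint from `S`). -/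
inductive Minor (F : Finset (Finset α)) : Finset (Finset α) → Prop
  | refl : Minor F F
  | weak {G : Finset (Finset α)} (S : Finset α) : Minor F G → Minor F (G.image fun B => B \ S)
  | strong {G : Finset (Finset α)} (S : Finset α) :
      Minor F G → Minor F (G.filter fun B => Disjoint B S)

/-- The system `abc, cde, bdf, aef, cf, be, ad`, the points `a, ..., f` being `0, ..., 5`. -/
def Q : Finset (Finset (Fin 6)) :=
  {{0, 1, 2}, {2, 3, 4}, {1, 3, 5}, {0, 4, 5}, {2, 5}, {1, 4}, {0, 3}}

/-- `F` contains `Q` as a minor: the minimal blocks of some minor of `F` are the images of the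
blocks of `Q` under an injective map of the points. -/
def ContainsQ (F : Finset (Finset α)) : Prop :=
  ∃ G, Minor F G ∧ ∃ φ : Fin 6 → α, Function.Injective φ ∧ minl G = Q.image fun B => B.image φ

end Pool.Agent.TH502.SM
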