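import Pool.Agent.TH502.SM.Main

/-!
# Seymour's conjecture on Menger duals of Mengerian set systems is false

Definitions (`Pool/Agent/TH502/SM/Defs.lean`): a set system on the finite set of points `α` is a
`Finset (Finset α)`; `minl` (minimal blocks), `dual` (Menger dual), `nu`, `tau`, `HasMenger` (Menger
property), `Mengerian`, `Minor`, `Q` and `ContainsQ` follow the definitions of the problem.

The counterexample has eight points `0, ..., 7`, in four pairs `{i, i + 4}`, and the twelve blocks
`04, 15, 26, 37, 027, 057, 127, 147, 467, 567, 0136, 2345`. Its Menger dual consists of the eight
blocks `0127, 0257, 0567, 1247, 1467, 4567, 0136, 2345`, which contain one point of every pair, any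
two of which meet, and which have no common point.

* Mengerian: every block of the dual contains exactly one point of every pair, so for given
  capacities `c` one may first use the blocks `{i, i + 4}` as often as possible. Then only one point
  of every pair has positive capacity, and for each of the sixteen choices of these points at most
  two blocks are left; the packing is then obvious.
* The system does not contain `Q`: for a minor with the minimal blocks of `Q` only two points can be
  removed, and in all cases there is a block with at most one point, or there are at most three
  blocks with three points, or at most two with two points.
-/

set_option autoImplicit false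

namespace Pool.Agent.TH502.SM.EightPoints

open Pool.Agent.TH502.SM

/-- There is a Mengerian set system on eight points which does not contain `Q` as a minor and whose
Menger dual does not have the Menger property: in the dual any two blocks meet, but no point lies in
all blocks. -/
theorem result : ∃ F : Finset (Finset (Fin 8)),
    Mengerian F ∧ ¬ ContainsQ F ∧ ¬ HasMenger (dual F) ∧ nu (dual F) = 1 ∧ tau (dual F) = 2 :=
  ⟨F8, mengerian, not_containsQ, not_menger, by rw [dual_F8]; exact nu_C8,
    by rw [dual_F8]; exact tau_C8⟩

end Pool.Agent.TH502.SM.EightPoints
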