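import Pool.Agent.TH502.SM.Defs

/-!
# A Mengerian system on eight points whose Menger dual lacks the Menger property
-/

set_option autoImplicit false
set_option linter.unusedSectionVars false

namespace Pool.Agent.TH502.SM

open Finset

/-- the counterexample -/
def F8 : Finset (Finset (Fin 8)) :=
  {{3, 7}, {0, 4}, {1, 5}, {2, 6}, {0, 2, 7}, {1, 2, 7}, {1, 4, 7}, {0, 5, 7}, {4, 6, 7}, {5, 6, 7},
    {2, 3, 4, 5}, {0, 1, 3, 6}}

/-- its Menger dual -/
def C8 : Finset (Finset (Fin 8)) :=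
  {{4, 5, 6, 7}, {0, 5, 6, 7}, {4, 1, 6, 7}, {0, 5, 2, 7}, {4, 1, 2, 7}, {0, 1, 2, 7}, {0, 1, 6, 3},
    {4, 5, 2, 3}}

lemma bool_key : ∀ p0 p1 p2 p3 p4 p5 p6 p7 : Bool,
    ((p3 || p7) && ((p0 || p4) && ((p1 || p5) && ((p2 || p6) && ((p0 || (p2 || p7)) &&
      ((p1 || (p2 || p7)) && ((p1 || (p4 || p7)) && ((p0 || (p5 || p7)) && ((p4 || (p6 || p7)) &&
      ((p5 || (p6 || p7)) && ((p2 || (p3 || (p4 || p5))) && (p0 || (p1 || (p3 || p6)))))))))))))) = true →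
    ((p4 && (p5 && (p6 && p7))) || ((p0 && (p5 && (p6 && p7))) || ((p4 && (p1 && (p6 && p7))) ||
      ((p0 && (p5 && (p2 && p7))) || ((p4 && (p1 && (p2 && p7))) || ((p0 && (p1 && (p2 && p7))) ||
      ((p0 && (p1 && (p6 && p3))) || (p4 && (p5 && (p2 && p3)))))))))) = true := by
  decide

lemma hit_iff (T : Finset (Fin 8)) : (∀ B ∈ F8, (B ∩ T).Nonempty) ↔ ∃ C ∈ C8, C ⊆ T := by
  have h := bool_key (decide (0 ∈ T)) (decide (1 ∈ T)) (decide (2 ∈ T)) (decide (3 ∈ T))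
    (decide (4 ∈ T)) (decide (5 ∈ T)) (decide (6 ∈ T)) (decide (7 ∈ T))
  simp only [Bool.and_eq_true, Bool.or_eq_true, decide_eq_true_eq] at h
  constructor
  · intro hT
    have hT' : ∀ B ∈ F8, ∃ x ∈ B, x ∈ T := by
      intro B hB
      obtain ⟨x, hx⟩ := hT B hB
      exact ⟨x, (mem_inter.1 hx).1, (mem_inter.1 hx).2⟩
    simp only [F8, mem_insert, mem_singleton, forall_eq_or_imp, forall_eq, exists_eq_or_imp,
      exists_eq_left] at hT'
    simp only [C8, mem_insert, mem_singleton, exists_eq_or_imp, exists_eq_left, insert_subset_iff,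
      singleton_subset_iff]
    exact h hT'
  · rintro ⟨C, hC, hCT⟩ B hB
    have h1 : ∀ C ∈ C8, ∀ B ∈ F8, (B ∩ C).Nonempty := by decide +kernel
    exact (h1 C hC B hB).mono (inter_subset_inter_left hCT)
lemma minl_F8 : minl F8 = F8 := by decide +kernel

lemma card_C8 : ∀ C ∈ C8, C.card = 4 := by decide +kernel

lemma dual_F8 : dual F8 = C8 := by
  ext T
  unfold dual
  rw [minl, mem_filter, mem_filter, minl_F8]
  constructor
  · rintro ⟨⟨-, h1⟩, h2⟩
    obtain ⟨C, hC, hCT⟩ := (hit_iff T).1 h1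
    have h3 := h2 C (mem_filter.2 ⟨mem_univ _, (hit_iff C).2 ⟨C, hC, Subset.refl _⟩⟩) hCT
    rwa [← h3]
  · intro hT
    refine ⟨⟨mem_univ _, (hit_iff T).2 ⟨T, hT, Subset.refl _⟩⟩, ?_⟩
    intro T' hT' hs
    obtain ⟨C, hC, hCT⟩ := (hit_iff T').1 (mem_filter.1 hT').2
    have h1 : C = T := eq_of_subset_of_card_le (hCT.trans hs) (by rw [card_C8 C hC, card_C8 T hT])
    exact Subset.antisymm hs (h1 ▸ hCT)

lemma minl_C8 : minl C8 = C8 := by decide +kernel

lemma nu_C8 : nu C8 = 1 := by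
  unfold nu
  rw [minl_C8]
  refine le_antisymm (Finset.sup_le ?_) ?_
  · intro P hP
    rw [mem_filter, mem_powerset] at hP
    rw [card_le_one]
    intro A hA B hB
    by_contra hne
    have h1 : ∀ A ∈ C8, ∀ B ∈ C8, ¬ Disjoint A B := by decide +kernel
    exact h1 A (hP.1 hA) B (hP.1 hB) (hP.2 A hA B hB hne)
  · refine le_trans ?_ (Finset.le_sup (f := card) (b := {{4, 5, 6, 7}}) ?_)
    · simp
    · rw [mem_filter, mem_powerset]
      refine ⟨by decide, ?_⟩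
      intro B hB B' hB' hne
      rw [mem_singleton] at hB hB'
      exact absurd (hB.trans hB'.symm) hne

lemma two_le {T : Finset (Fin 8)} (h : ∀ B ∈ C8, (B ∩ T).Nonempty) : 2 ≤ T.card := by
  by_contra hc
  have h1 : T.card ≤ 1 := by omega
  rw [card_le_one_iff_subset_singleton] at h1
  obtain ⟨x, hx⟩ := h1
  have h2 : ∀ x : Fin 8, ∃ B ∈ C8, x ∉ B := by decide +kernel
  obtain ⟨B, hB, hxB⟩ := h2 x
  obtain ⟨y, hy⟩ := h B hB
  rw [mem_inter] at hy
  have := mem_singleton.1 (hx hy.2)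
  subst this
  exact hxB hy.1

lemma tau_C8 : tau C8 = 2 := by
  have hd : ({0, 4} : Finset (Fin 8)) ∈ dual C8 := by
    unfold dual
    rw [minl, mem_filter, mem_filter, minl_C8]
    refine ⟨⟨mem_univ _, by decide +kernel⟩, ?_⟩
    intro T hT hs
    rw [mem_filter] at hT
    exact eq_of_subset_of_card_le hs (two_le hT.2)
  apply le_antisymm
  · exact Nat.sInf_le ⟨_, hd, by decide⟩
  · refine le_csInf ⟨2, _, hd, by decide⟩ ?_
    rintro n ⟨T, hT, rfl⟩
    unfold dual at hT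
    rw [minl, mem_filter, mem_filter, minl_C8] at hT
    exact two_le hT.1.2

lemma not_menger : ¬ HasMenger (dual F8) := by
  rw [dual_F8]
  rintro (h | h | h)
  · revert h
    decide
  · revert h
    decide
  · rw [nu_C8, tau_C8] at h
    omega

/-! ### minors -/

section

variable {α : Type} [Fintype α] [DecidableEq α]

lemma minor_form {F G : Finset (Finset α)} (h : Minor F G) :
    ∃ S T : Finset α, G = (F.filter fun B => Disjoint B T).image fun B => B \ S := by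
  induction h with
  | refl => exact ⟨∅, ∅, by simp⟩
  | @weak G S _ ih =>
    obtain ⟨S', T, rfl⟩ := ih
    refine ⟨S' ∪ S, T, ?_⟩
    rw [image_image]
    refine image_congr fun B _ => ?_
    simp [sdiff_sdiff_left]
  | @strong G S _ ih =>
    obtain ⟨S', T, rfl⟩ := ih
    refine ⟨S', T ∪ (S \ S'), ?_⟩
    ext B
    simp only [mem_filter, mem_image]
    constructor
    · rintro ⟨⟨A, ⟨hA, hAT⟩, rfl⟩, hd⟩
      refine ⟨A, ⟨hA, ?_⟩, rfl⟩
      rw [disjoint_union_right]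
      refine ⟨hAT, ?_⟩
      rw [disjoint_left] at hd ⊢
      intro x hx hxs
      rw [mem_sdiff] at hxs
      exact hd (mem_sdiff.2 ⟨hx, hxs.2⟩) hxs.1
    · rintro ⟨A, ⟨hA, hAT⟩, rfl⟩
      rw [disjoint_union_right] at hAT
      refine ⟨⟨A, ⟨hA, hAT.1⟩, rfl⟩, ?_⟩
      rw [disjoint_left]
      intro x hx hxs
      rw [mem_sdiff] at hx
      exact (disjoint_left.1 hAT.2) hx.1 (mem_sdiff.2 ⟨hxs, hx.2⟩)

end


/-- the blocks of size `k` after the removal of `S` which avoid the rest of `{p, q}` -/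
def cand (p q : Fin 8) (S T : Finset (Fin 8)) (k : ℕ) : Finset (Finset (Fin 8)) :=
  F8.filter fun B => (∀ x ∈ B, x = p ∨ x = q → x ∈ S ∧ x ∉ T) ∧ (B \ S).card = k

set_option maxRecDepth 100000 in
lemma no_cand : ∀ p q : Fin 8, p < q → ∀ S ∈ ({p, q} : Finset (Fin 8)).powerset,
    ∀ T ∈ ({p, q} : Finset (Fin 8)).powerset,
    (∃ B ∈ F8, Disjoint B T ∧ (B \ S).card ≤ 1) ∨ (cand p q S T 3).card < 4 ∨
      (cand p q S T 2).card < 3 := by
  decide +kernel

lemma exists_minl {α : Type} [Fintype α] [DecidableEq α] {F : Finset (Finset α)} {B : Finset α} (hB : B ∈ F) :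
    ∃ B' ∈ minl F, B' ⊆ B := by
  obtain ⟨A, hA, hmin⟩ := exists_min_image (F.filter fun A => A ⊆ B) card
    ⟨B, mem_filter.2 ⟨hB, Subset.refl _⟩⟩
  rw [mem_filter] at hA
  refine ⟨A, mem_filter.2 ⟨hA.1, fun A' hA' hs => ?_⟩, hA.2⟩
  exact eq_of_subset_of_card_le hs (hmin A' (mem_filter.2 ⟨hA', hs.trans hA.2⟩))

lemma Q_card : ∀ A ∈ Q, 2 ≤ A.card := by decide +kernel

lemma Q_three : (Q.filter fun A => A.card = 3).card = 4 := by decide +kernel

lemma Q_two : (Q.filter fun A => A.card = 2).card = 3 := by decide +kernel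

lemma not_containsQ : ¬ ContainsQ F8 := by
  rintro ⟨G, hG, φ, hφ, hm⟩
  obtain ⟨S, T, rfl⟩ := minor_form hG
  have hcard : (univ \ univ.image φ : Finset (Fin 8)).card = 2 := by
    rw [card_sdiff_of_subset (subset_univ _), card_image_of_injective _ hφ]
    rfl
  obtain ⟨p, q, hne, hpq⟩ := card_eq_two.1 hcard
  have hK : ∀ x : Fin 8, (x = p ∨ x = q) ↔ ∀ i, φ i ≠ x := by
    intro x
    have h1 : x ∈ (univ \ univ.image φ : Finset (Fin 8)) ↔ x ∈ ({p, q} : Finset (Fin 8)) := by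
      rw [hpq]
    simp only [mem_sdiff, mem_univ, true_and, mem_image, not_exists, mem_insert,
      mem_singleton] at h1
    rw [← h1]
  have key : ∀ S T p q, p < q → (∀ x : Fin 8, (x = p ∨ x = q) ↔ ∀ i, φ i ≠ x) → S ⊆ {p, q} →
      T ⊆ {p, q} → minl ((F8.filter fun B => Disjoint B T).image fun B => B \ S) =
        Q.image (fun B => B.image φ) → False := by
    intro S T p q hlt hK hS hT hm
    have hcand : ∀ k, (Q.filter fun A => A.card = k).card ≤ (cand p q S T k).card := by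
      intro k
      have h1 : ∀ A ∈ Q, ∃ B ∈ F8, Disjoint B T ∧ B \ S = A.image φ := by
        intro A hA
        have h2 : A.image φ ∈ minl ((F8.filter fun B => Disjoint B T).image fun B => B \ S) := by
          rw [hm]
          exact mem_image_of_mem _ hA
        have h3 := (mem_filter.1 h2).1
        obtain ⟨B, hB, hBA⟩ := mem_image.1 h3
        rw [mem_filter] at hB
        exact ⟨B, hB.1, hB.2, hBA⟩
      choose! g hg1 hg2 hg3 using h1
      refine card_le_card_of_injOn g ?_ ?_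
      · intro A hA
        have hA' := mem_filter.1 (mem_coe.1 hA)
        rw [mem_coe]
        unfold cand
        rw [mem_filter]
        refine ⟨hg1 A hA'.1, ?_, ?_⟩
        · intro x hx hxpq
          have hxT : x ∉ T := fun h => (disjoint_left.1 (hg2 A hA'.1)) hx h
          refine ⟨?_, hxT⟩
          by_contra hxS
          have h4 : x ∈ A.image φ := by
            rw [← hg3 A hA'.1]
            exact mem_sdiff.2 ⟨hx, hxS⟩
          obtain ⟨i, -, hi⟩ := mem_image.1 h4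
          exact (hK x).1 hxpq i hi
        · rw [hg3 A hA'.1, card_image_of_injective _ hφ]
          exact hA'.2
      · intro A hA A' hA' he
        have hA1 := (mem_filter.1 (mem_coe.1 hA)).1
        have hA2 := (mem_filter.1 (mem_coe.1 hA')).1
        have h5 : A.image φ = A'.image φ := by
          rw [← hg3 A hA1, ← hg3 A' hA2, he]
        exact image_injective hφ h5
    rcases no_cand p q hlt S (mem_powerset.2 hS) T (mem_powerset.2 hT) with h | h | h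
    · obtain ⟨B, hB, hBT, hBS⟩ := h
      obtain ⟨A, hA, hAB⟩ := exists_minl (F := (F8.filter fun B => Disjoint B T).image
        fun B => B \ S) (mem_image_of_mem (fun B => B \ S) (mem_filter.2 ⟨hB, hBT⟩))
      rw [hm] at hA
      obtain ⟨A', hA', rfl⟩ := mem_image.1 hA
      have h1 := card_le_card hAB
      rw [card_image_of_injective _ hφ] at h1
      have h2 := Q_card A' hA'
      omega
    · have h1 := hcand 3
      rw [Q_three] at h1
      omega
    · have h1 := hcand 2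
      rw [Q_two] at h1
      omega
  -- every point of a minimal block avoids `S` and `T`
  have hcov : ∀ i, ∃ A ∈ Q, i ∈ A := by decide +kernel
  have hav : ∀ i, φ i ∉ S ∧ φ i ∉ T := by
    intro i
    obtain ⟨A, hA, hi⟩ := hcov i
    have h2 : A.image φ ∈ minl ((F8.filter fun B => Disjoint B T).image fun B => B \ S) := by
      rw [hm]
      exact mem_image_of_mem _ hA
    obtain ⟨B, hB, hBA⟩ := mem_image.1 (mem_filter.1 h2).1
    rw [mem_filter] at hB
    have h3 : φ i ∈ B \ S := by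
      have : φ i ∈ A.image φ := mem_image_of_mem _ hi
      rwa [← hBA] at this
    rw [mem_sdiff] at h3
    exact ⟨h3.2, fun h => (disjoint_left.1 hB.2) h3.1 h⟩
  have hS : S ⊆ {p, q} := by
    intro x hx
    rw [mem_insert, mem_singleton, hK]
    rintro i rfl
    exact (hav i).1 hx
  have hT : T ⊆ {p, q} := by
    intro x hx
    rw [mem_insert, mem_singleton, hK]
    rintro i rfl
    exact (hav i).2 hx
  rcases lt_or_gt_of_ne hne with h | h
  · exact key S T p q h hK hS hT hm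
  · rw [pair_comm] at hS hT
    exact key S T q p h (fun x => by rw [← hK, or_comm]) hS hT hm


/-! ### the system is Mengerian -/

/-- two blocks with two common points `x`, `y` and different third points `u`, `w` -/
lemma two (u w x y : ℕ) : ∃ f g : ℕ, f ≤ u ∧ g ≤ w ∧ f + g ≤ x ∧ f + g ≤ y ∧
    (u + w ≤ f + g ∨ x ≤ f + g ∨ y ≤ f + g) := by
  refine ⟨min u (min x y), min w (min (x - min u (min x y)) (y - min u (min x y))), ?_⟩
  omega

lemma four (u w x y : ℕ) : ∃ f : ℕ, f ≤ u ∧ f ≤ w ∧ f ≤ x ∧ f ≤ y ∧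
    (u ≤ f ∨ w ≤ f ∨ x ≤ f ∨ y ≤ f) := by
  refine ⟨min (min u w) (min x y), ?_⟩
  omega

set_option maxRecDepth 10000 in
lemma num (c0 c1 c2 c3 c4 c5 c6 c7 : ℕ) : ∃ n0 n1 n2 n3 n4 n5 n6 n7 n8 n9 n10 n11 : ℕ,
    (n1 + n4 + n7 + n11 ≤ c0) ∧
    (n2 + n5 + n6 + n11 ≤ c1) ∧
    (n3 + n4 + n5 + n10 ≤ c2) ∧
    (n0 + n10 + n11 ≤ c3) ∧
    (n1 + n6 + n8 + n10 ≤ c4) ∧
    (n2 + n7 + n9 + n10 ≤ c5) ∧
    (n3 + n8 + n9 + n11 ≤ c6) ∧
    (n0 + n4 + n5 + n6 + n7 + n8 + n9 ≤ c7) ∧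
    (c4 + c5 + c6 + c7 ≤ n0 + n1 + n2 + n3 + n4 + n5 + n6 + n7 + n8 + n9 + n10 + n11 ∨
      c0 + c5 + c6 + c7 ≤ n0 + n1 + n2 + n3 + n4 + n5 + n6 + n7 + n8 + n9 + n10 + n11 ∨
      c4 + c1 + c6 + c7 ≤ n0 + n1 + n2 + n3 + n4 + n5 + n6 + n7 + n8 + n9 + n10 + n11 ∨
      c0 + c5 + c2 + c7 ≤ n0 + n1 + n2 + n3 + n4 + n5 + n6 + n7 + n8 + n9 + n10 + n11 ∨
      c4 + c1 + c2 + c7 ≤ n0 + n1 + n2 + n3 + n4 + n5 + n6 + n7 + n8 + n9 + n10 + n11 ∨
      c0 + c1 + c2 + c7 ≤ n0 + n1 + n2 + n3 + n4 + n5 + n6 + n7 + n8 + n9 + n10 + n11 ∨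
      c0 + c1 + c6 + c3 ≤ n0 + n1 + n2 + n3 + n4 + n5 + n6 + n7 + n8 + n9 + n10 + n11 ∨
      c4 + c5 + c2 + c3 ≤ n0 + n1 + n2 + n3 + n4 + n5 + n6 + n7 + n8 + n9 + n10 + n11) := by
  rcases le_total c0 c4 with h0 | h0 <;> rcases le_total c1 c5 with h1 | h1 <;>
    rcases le_total c2 c6 with h2 | h2 <;> rcases le_total c3 c7 with h3 | h3
  · obtain ⟨f, g, e1, e2, e3, e4, e5⟩ := two (c4 - c0) (c5 - c1) (c6 - c2) (c7 - c3)
    refine ⟨c3, c0, c1, c2, 0, 0, 0, 0, f, g, 0, 0, ?_⟩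
    omega
  · refine ⟨c7, c0, c1, c2, 0, 0, 0, 0, 0, 0, 0, 0, ?_⟩
    omega
  · refine ⟨c3, c0, c1, c6, 0, 0, 0, 0, 0, 0, 0, 0, ?_⟩
    omega
  · obtain ⟨f, e1, e2, e3, e4, e5⟩ := four (c2 - c6) (c3 - c7) (c4 - c0) (c5 - c1)
    refine ⟨c7, c0, c1, c6, 0, 0, 0, 0, 0, 0, f, 0, ?_⟩
    omega
  · obtain ⟨f, g, e1, e2, e3, e4, e5⟩ := two (c1 - c5) (c6 - c2) (c4 - c0) (c7 - c3)
    refine ⟨c3, c0, c5, c2, 0, 0, f, 0, g, 0, 0, 0, ?_⟩
    omega
  · refine ⟨c7, c0, c5, c2, 0, 0, 0, 0, 0, 0, 0, 0, ?_⟩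
    omega
  · obtain ⟨f, g, e1, e2, e3, e4, e5⟩ := two (c2 - c6) (c4 - c0) (c1 - c5) (c7 - c3)
    refine ⟨c3, c0, c5, c6, 0, f, g, 0, 0, 0, 0, 0, ?_⟩
    omega
  · refine ⟨c7, c0, c5, c6, 0, 0, 0, 0, 0, 0, 0, 0, ?_⟩
    omega
  · obtain ⟨f, g, e1, e2, e3, e4, e5⟩ := two (c0 - c4) (c6 - c2) (c5 - c1) (c7 - c3)
    refine ⟨c3, c4, c1, c2, 0, 0, 0, f, 0, g, 0, 0, ?_⟩
    omega
  · refine ⟨c7, c4, c1, c2, 0, 0, 0, 0, 0, 0, 0, 0, ?_⟩
    omega
  · obtain ⟨f, g, e1, e2, e3, e4, e5⟩ := two (c2 - c6) (c5 - c1) (c0 - c4) (c7 - c3)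
    refine ⟨c3, c4, c1, c6, f, 0, 0, g, 0, 0, 0, 0, ?_⟩
    omega
  · refine ⟨c7, c4, c1, c6, 0, 0, 0, 0, 0, 0, 0, 0, ?_⟩
    omega
  · refine ⟨c3, c4, c5, c2, 0, 0, 0, 0, 0, 0, 0, 0, ?_⟩
    omega
  · obtain ⟨f, e1, e2, e3, e4, e5⟩ := four (c0 - c4) (c1 - c5) (c3 - c7) (c6 - c2)
    refine ⟨c7, c4, c5, c2, 0, 0, 0, 0, 0, 0, 0, f, ?_⟩
    omega
  · obtain ⟨f, g, e1, e2, e3, e4, e5⟩ := two (c0 - c4) (c1 - c5) (c2 - c6) (c7 - c3)
    refine ⟨c3, c4, c5, c6, f, g, 0, 0, 0, 0, 0, 0, ?_⟩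
    omega
  · refine ⟨c7, c4, c5, c6, 0, 0, 0, 0, 0, 0, 0, 0, ?_⟩
    omega

/-- the blocks of `F8` in order -/
def blk : Fin 12 → Finset (Fin 8) :=
  ![{3, 7}, {0, 4}, {1, 5}, {2, 6}, {0, 2, 7}, {1, 2, 7}, {1, 4, 7}, {0, 5, 7}, {4, 6, 7},
    {5, 6, 7}, {2, 3, 4, 5}, {0, 1, 3, 6}]

lemma blk_mem : ∀ i, blk i ∈ F8 := by decide +kernel

/-- the packing with multiplicities `n` -/
def pack (n : Fin 12 → ℕ) (B : Finset (Fin 8)) : ℕ := ∑ i, if blk i = B then n i else 0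

lemma sum_pack (n : Fin 12 → ℕ) (A : Finset (Finset (Fin 8))) :
    ∑ B ∈ A, pack n B = ∑ i, if blk i ∈ A then n i else 0 := by
  unfold pack
  rw [sum_comm]
  refine sum_congr rfl fun i _ => ?_
  rw [sum_ite_eq]

lemma sum_all (n : Fin 12 → ℕ) : ∑ B ∈ F8, pack n B = ∑ i, n i := by
  rw [sum_pack]
  exact sum_congr rfl fun i _ => if_pos (blk_mem i)

lemma sum_at (n : Fin 12 → ℕ) (x : Fin 8) :
    ∑ B ∈ F8.filter (fun B => x ∈ B), pack n B = ∑ i, if x ∈ blk i then n i else 0 := by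
  rw [sum_pack]
  refine sum_congr rfl fun i _ => ?_
  simp [mem_filter, blk_mem i]

lemma mengerian : Mengerian F8 := by
  right
  intro c
  obtain ⟨n0, n1, n2, n3, n4, n5, n6, n7, n8, n9, n10, n11, h0, h1, h2, h3, h4, h5, h6, h7, hd⟩ :=
    num (c 0) (c 1) (c 2) (c 3) (c 4) (c 5) (c 6) (c 7)
  have htot : ∑ B ∈ F8, pack ![n0, n1, n2, n3, n4, n5, n6, n7, n8, n9, n10, n11] B =
      n0 + n1 + n2 + n3 + n4 + n5 + n6 + n7 + n8 + n9 + n10 + n11 := by
    rw [sum_all]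
    simp [Fin.sum_univ_succ]
    ring
  have hle : ∀ C ∈ C8, n0 + n1 + n2 + n3 + n4 + n5 + n6 + n7 + n8 + n9 + n10 + n11 ≤
      ∑ x ∈ C, c x := by
    simp only [C8, mem_insert, mem_singleton, forall_eq_or_imp, forall_eq]
    refine ⟨?_, ?_, ?_, ?_, ?_, ?_, ?_, ?_⟩ <;> simp <;> omega
  have hex : ∃ C ∈ C8, ∑ x ∈ C, c x ≤
      n0 + n1 + n2 + n3 + n4 + n5 + n6 + n7 + n8 + n9 + n10 + n11 := by
    simp only [C8, mem_insert, mem_singleton, exists_eq_or_imp, exists_eq_left]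
    rcases hd with h | h | h | h | h | h | h | h
    · left; simp; omega
    · right; left; simp; omega
    · right; right; left; simp; omega
    · right; right; right; left; simp; omega
    · right; right; right; right; left; simp; omega
    · right; right; right; right; right; left; simp; omega
    · right; right; right; right; right; right; left; simp; omega
    · right; right; right; right; right; right; right; simp; omega
  refine ⟨pack ![n0, n1, n2, n3, n4, n5, n6, n7, n8, n9, n10, n11], ?_, ?_⟩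
  · intro x
    rw [sum_at]
    fin_cases x <;> simp [Fin.sum_univ_succ, blk] <;> omega
  · obtain ⟨C, hC, hCle⟩ := hex
    rw [dual_F8, htot]
    exact ⟨C, hC, fun C' hC' => hCle.trans (hle C' hC'), le_antisymm (hle C hC) hCle⟩

end Pool.Agent.TH502.SM
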